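import Mathlib

/-!
# Wang tiles, tilings and the arithmetical hierarchy: the definitions
-/

set_option autoImplicit false

namespace Pool.Agent.E8helper89.PT

/-- A Wang tile: the colours of the left, right, bottom and top edges. -/
abbrev Tile := ℕ × ℕ × ℕ × ℕ

/-- colour of the left edge -/
def Tile.left (t : Tile) : ℕ := t.1
/-- colour of the right edge -/
def Tile.right (t : Tile) : ℕ := t.2.1
/-- colour of the bottom edge -/
def Tile.bottom (t : Tile) : ℕ := t.2.2.1
/-- colour of the top edge -/
def Tile.top (t : Tile) : ℕ := t.2.2.2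

/-- `T` is a tiling of the plane by the tiles of the list `S`. -/
def IsTiling (S : List Tile) (T : ℤ → ℤ → Tile) : Prop :=
  (∀ x y, T x y ∈ S) ∧ (∀ x y, (T x y).right = (T (x + 1) y).left) ∧
    ∀ x y, (T x y).top = (T x (y + 1)).bottom

/-- `T` has a nonzero period. -/
def Periodic (T : ℤ → ℤ → Tile) : Prop :=
  ∃ a b : ℤ, (a ≠ 0 ∨ b ≠ 0) ∧ ∀ x y, T (x + a) (y + b) = T x y

/-- **The arithmetical hierarchy.**  `SigmaPred 0` are the decidable predicates; a predicate is
`SigmaPred (n + 1)` if it is `∃ k, q (a, k)` with the complement of `q` in `SigmaPred n`. -/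
def SigmaPred : ℕ → ∀ {α : Type} [Primcodable α], (α → Prop) → Prop
  | 0, _, _, p => ComputablePred p
  | n + 1, α, _, p => ∃ q : α × ℕ → Prop, SigmaPred n (fun x => ¬ q x) ∧ ∀ a, p a ↔ ∃ k, q (a, k)

/-- The complements of the `SigmaPred n` predicates. -/
def PiPred (n : ℕ) {α : Type} [Primcodable α] (p : α → Prop) : Prop := SigmaPred n fun a => ¬ p a

end Pool.Agent.E8helper89.PT
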