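import Mathlib

/-!
# Locally periodic configurations on `ℤ²` are periodic

If every window of radius `R` of a configuration `T` on `ℤ²` has one of the finitely many vectors
`v` with `|v| ≤ m` as a period, and `R` is large compared with `m`, then `T` has a period `v` with
`|v| ≤ Q m`, where `Q` is divisible by `1, …, 2 m²`.
-/

set_option autoImplicit false

namespace Pool.Agent.E8helper89.PT

variable {A : Type*}

/-- `(a, b)` is a period of `T` on the window of radius `R` around `(x, y)`. -/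
def LP (T : ℤ → ℤ → A) (x y R a b : ℤ) : Prop :=
  ∀ s t, |s - x| ≤ R → |t - y| ≤ R → |s + a - x| ≤ R → |t + b - y| ≤ R → T s t = T (s + a) (t + b)

theorem LP.mono {T : ℤ → ℤ → A} {x y R a b x' y' R' : ℤ} (h : LP T x y R a b)
    (h1 : |x' - x| + R' ≤ R) (h2 : |y' - y| + R' ≤ R) : LP T x' y' R' a b := by
  intro s t h3 h4 h5 h6
  apply h
  · have := abs_sub_le s x' x; omega
  · have := abs_sub_le t y' y; omega
  · have := abs_sub_le (s + a) x' x; omega
  · have := abs_sub_le (t + b) y' y; omega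

theorem between {a b R : ℤ} {j k : ℤ} (h1 : |a| ≤ R) (h2 : |a + k * b| ≤ R) (hj : 0 ≤ j)
    (hjk : j ≤ k) : |a + j * b| ≤ R := by
  rw [abs_le] at h1 h2 ⊢
  rcases le_total 0 b with hb | hb
  · constructor <;> nlinarith
  · constructor <;> nlinarith

theorem LP.walk {T : ℤ → ℤ → A} {x y R a b : ℤ} (h : LP T x y R a b) (k : ℕ) :
    ∀ s t, |s - x| ≤ R → |t - y| ≤ R → |s + k * a - x| ≤ R → |t + k * b - y| ≤ R →
      T s t = T (s + k * a) (t + k * b) := by
  induction k with
  | zero => intro s t _ _ _ _; simp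
  | succ k ih =>
    intro s t h1 h2 h3 h4
    push_cast at h3 h4 ⊢
    have e1 : |s + 1 * a - x| ≤ R := by
      have := between (a := s - x) (b := a) (R := R) (j := 1) (k := k + 1) h1
        (by rw [show s - x + ((k : ℤ) + 1) * a = s + (k + 1) * a - x by ring]; exact h3)
        (by norm_num) (by omega)
      rwa [show s - x + 1 * a = s + 1 * a - x by ring] at this
    have e2 : |t + 1 * b - y| ≤ R := by
      have := between (a := t - y) (b := b) (R := R) (j := 1) (k := k + 1) h2
        (by rw [show t - y + ((k : ℤ) + 1) * b = t + (k + 1) * b - y by ring]; exact h4)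
        (by norm_num) (by omega)
      rwa [show t - y + 1 * b = t + 1 * b - y by ring] at this
    rw [one_mul] at e1 e2
    rw [h s t h1 h2 e1 e2, ih (s + a) (t + b) e1 e2
      (by rw [show s + a + k * a - x = s + (k + 1) * a - x by ring]; exact h3)
      (by rw [show t + b + k * b - y = t + (k + 1) * b - y by ring]; exact h4)]
    congr 1 <;> ring

theorem LP.walk' {T : ℤ → ℤ → A} {x y R a b : ℤ} (h : LP T x y R a b) (k : ℤ) (s t : ℤ)
    (h1 : |s - x| ≤ R) (h2 : |t - y| ≤ R) (h3 : |s + k * a - x| ≤ R) (h4 : |t + k * b - y| ≤ R) :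
    T s t = T (s + k * a) (t + k * b) := by
  rcases le_total 0 k with hk | hk
  · obtain ⟨n, rfl⟩ := Int.eq_ofNat_of_zero_le hk
    exact h.walk n s t h1 h2 h3 h4
  · obtain ⟨n, hn⟩ := Int.eq_ofNat_of_zero_le (show 0 ≤ -k by omega)
    have hk' : k = -(n : ℤ) := by omega
    subst hk'
    have := h.walk n (s + -(n : ℤ) * a) (t + -(n : ℤ) * b) h3 h4
      (by rw [show s + -(n : ℤ) * a + n * a - x = s - x by ring]; exact h1)
      (by rw [show t + -(n : ℤ) * b + n * b - y = t - y by ring]; exact h2)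
    rw [this]
    congr 1 <;> ring

/-- The place `(x, y)` is not a place where `T` is `Q ℤ²`-periodic. -/
def Defect (T : ℤ → ℤ → A) (Q : ℤ) (x y : ℤ) : Prop :=
  T x y ≠ T (x + Q) y ∨ T x y ≠ T x (y + Q)

theorem abs_mul_le {a b A B : ℤ} (ha : |a| ≤ A) (hb : |b| ≤ B) : |a * b| ≤ A * B := by
  rw [abs_mul]
  exact mul_le_mul ha hb (abs_nonneg _) ((abs_nonneg _).trans ha)

theorem abs_three {a b c A B : ℤ} (h1 : |a| ≤ A) (h2 : |b| ≤ B) (h : A + B ≤ c) : |a + b| ≤ c := by
  have := abs_add_le a b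
  omega

/-- Two nonparallel local periods: no defect. -/
theorem not_defect {T : ℤ → ℤ → A} {x y R m Q a b c d : ℤ} (hm : 1 ≤ m) (hQ : 0 < Q)
    (hQd : ∀ e : ℤ, e ≠ 0 → |e| ≤ 2 * m ^ 2 → e ∣ Q) (ha : |a| ≤ m) (hb : |b| ≤ m) (hc : |c| ≤ m)
    (hd : |d| ≤ m) (h1 : LP T x y R a b) (h2 : LP T x y R c d) (hdet : a * d - b * c ≠ 0)
    (hR : Q * m ^ 2 ≤ R) : ¬ Defect T Q x y := by
  have hdle : |a * d - b * c| ≤ 2 * m ^ 2 := by
    have e1 := abs_mul_le ha hd
    have e2 := abs_mul_le hb hc
    have e3 := abs_sub (a * d) (b * c)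
    nlinarith
  obtain ⟨q, hq⟩ := hQd _ hdet hdle
  have hq1 : |q| ≤ Q := by
    have : 1 ≤ |a * d - b * c| := Int.one_le_abs hdet
    have h3 : |a * d - b * c| * |q| = Q := by rw [← abs_mul, ← hq, abs_of_pos hQ]
    nlinarith [abs_nonneg q]
  have hm2 : m ≤ m ^ 2 := by nlinarith
  have hQm : Q * m ≤ Q * m ^ 2 := by nlinarith
  have hQ1 : Q ≤ Q * m := by nlinarith
  have hR0 : 0 ≤ R := by nlinarith
  have bd : ∀ u v : ℤ, |u| ≤ m → |v| ≤ m → |q * u * v| ≤ R := by
    intro u v hu hv
    have := abs_mul_le (abs_mul_le hq1 hu) hv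
    nlinarith
  have key1 : T x y = T (x + Q) y := by
    have e1 := h1.walk' (q * d) x y (by simpa using hR0) (by simpa using hR0)
      (by rw [show x + q * d * a - x = q * d * a by ring]; exact bd _ _ hd ha)
      (by rw [show y + q * d * b - y = q * d * b by ring]; exact bd _ _ hd hb)
    have e2 := h2.walk' (-(q * b)) (x + q * d * a) (y + q * d * b)
      (by rw [show x + q * d * a - x = q * d * a by ring]; exact bd _ _ hd ha)
      (by rw [show y + q * d * b - y = q * d * b by ring]; exact bd _ _ hd hb)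
      (by
        rw [show x + q * d * a + -(q * b) * c - x = (a * d - b * c) * q by ring, ← hq,
          abs_of_pos hQ]
        linarith)
      (by
        rw [show y + q * d * b + -(q * b) * d - y = 0 by ring]
        simpa using hR0)
    rw [e1, e2]
    congr 1
    · rw [show x + q * d * a + -(q * b) * c = x + (a * d - b * c) * q by ring, ← hq]
    · ring
  have key2 : T x y = T x (y + Q) := by
    have e1 := h1.walk' (-(q * c)) x y (by simpa using hR0) (by simpa using hR0)
      (by
        rw [show x + -(q * c) * a - x = -(q * c * a) by ring, abs_neg]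
        exact bd _ _ hc ha)
      (by
        rw [show y + -(q * c) * b - y = -(q * c * b) by ring, abs_neg]
        exact bd _ _ hc hb)
    have e2 := h2.walk' (q * a) (x + -(q * c) * a) (y + -(q * c) * b)
      (by
        rw [show x + -(q * c) * a - x = -(q * c * a) by ring, abs_neg]
        exact bd _ _ hc ha)
      (by
        rw [show y + -(q * c) * b - y = -(q * c * b) by ring, abs_neg]
        exact bd _ _ hc hb)
      (by
        rw [show x + -(q * c) * a + q * a * c - x = 0 by ring]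
        simpa using hR0)
      (by
        rw [show y + -(q * c) * b + q * a * d - y = (a * d - b * c) * q by ring, ← hq,
          abs_of_pos hQ]
        linarith)
    rw [e1, e2]
    congr 1
    · ring
    · rw [show y + -(q * c) * b + q * a * d = y + (a * d - b * c) * q by ring, ← hq]
  rintro (h | h)
  · exact h key1
  · exact h key2

/-- Close defects have parallel local periods. -/
theorem parallel {T : ℤ → ℤ → A} {x y x' y' R m Q a b c d : ℤ} (hm : 1 ≤ m) (hQ : 0 < Q)
    (hQd : ∀ e : ℤ, e ≠ 0 → |e| ≤ 2 * m ^ 2 → e ∣ Q) (ha : |a| ≤ m) (hb : |b| ≤ m) (hc : |c| ≤ m)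
    (hd : |d| ≤ m) (h1 : LP T x y R a b) (h2 : LP T x' y' R c d) (hdef : Defect T Q x' y')
    (hx : |x' - x| ≤ 2 * (Q * m)) (hy : |y' - y| ≤ 2 * (Q * m))
    (hR : Q * m ^ 2 + 2 * (Q * m) ≤ R) : a * d - b * c = 0 := by
  by_contra hdet
  refine not_defect (R := Q * m ^ 2) hm hQ hQd ha hb hc hd ?_ ?_ hdet le_rfl hdef
  · exact h1.mono (by linarith) (by linarith)
  · have : 0 ≤ Q * m := by positivity
    exact h2.mono (by simp; linarith) (by simp; linarith)

/-- If `(c, d)` is parallel to `(a, b)`, then `Q (a, b)` is an integer multiple of `(c, d)`. -/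
theorem multiple {m Q a b c d : ℤ} (hm : 1 ≤ m)
    (hQd : ∀ e : ℤ, e ≠ 0 → |e| ≤ 2 * m ^ 2 → e ∣ Q)
    (hc : |c| ≤ m) (hd : |d| ≤ m) (hcd : c ≠ 0 ∨ d ≠ 0) (hpar : a * d - b * c = 0) :
    ∃ k : ℤ, k * c = Q * a ∧ k * d = Q * b := by
  have hm2 : m ≤ 2 * m ^ 2 := by nlinarith
  rcases hcd with h | h
  · obtain ⟨q, hq⟩ := hQd c h (hc.trans hm2)
    refine ⟨q * a, ?_, ?_⟩
    · rw [hq]; ring
    · rw [hq]
      have : a * d = b * c := by linarith
      calc q * a * d = q * (a * d) := by ring
        _ = q * (b * c) := by rw [this]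
        _ = c * q * b := by ring
  · obtain ⟨q, hq⟩ := hQd d h (hd.trans hm2)
    refine ⟨q * b, ?_, ?_⟩
    · rw [hq]
      have : a * d = b * c := by linarith
      calc q * b * c = q * (b * c) := by ring
        _ = q * (a * d) := by rw [this]
        _ = d * q * a := by ring
    · rw [hq]; ring

/-- parallelism is transitive -/
theorem par_trans {a b c d e f : ℤ} (h1 : a * d - b * c = 0) (h2 : c * f - d * e = 0)
    (hcd : c ≠ 0 ∨ d ≠ 0) : a * f - b * e = 0 := by
  rcases hcd with h | h
  · have : c * (a * f - b * e) = 0 := by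
      calc c * (a * f - b * e) = a * (c * f - d * e) + e * (a * d - b * c) := by ring
        _ = 0 := by rw [h1, h2]; ring
    rcases mul_eq_zero.1 this with h3 | h3
    · exact absurd h3 h
    · exact h3
  · have : d * (a * f - b * e) = 0 := by
      calc d * (a * f - b * e) = b * (c * f - d * e) + f * (a * d - b * c) := by ring
        _ = 0 := by rw [h1, h2]; ring
    rcases mul_eq_zero.1 this with h3 | h3
    · exact absurd h3 h
    · exact h3

/-- The hypothesis on `T`: every window has a short period. -/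
def LocPer (T : ℤ → ℤ → A) (R m : ℤ) : Prop :=
  ∀ x y, ∃ a b, (a ≠ 0 ∨ b ≠ 0) ∧ |a| ≤ m ∧ |b| ≤ m ∧ LP T x y R a b

/-- The defects on the line through a defect. -/
theorem defect_line {T : ℤ → ℤ → A} {R m Q : ℤ} (hm : 1 ≤ m) (hQ : 0 < Q)
    (hQd : ∀ e : ℤ, e ≠ 0 → |e| ≤ 2 * m ^ 2 → e ∣ Q) (hR : Q * m ^ 2 + 2 * (Q * m) ≤ R)
    (hT : LocPer T R m) {x y a b : ℤ} (hdef : Defect T Q x y) (hab : a ≠ 0 ∨ b ≠ 0)
    (ha : |a| ≤ m) (hb : |b| ≤ m) (h : LP T x y R a b) (k : ℤ) :
    Defect T Q (x + k * (Q * a)) (y + k * (Q * b)) ∧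
      ∃ c d, (c ≠ 0 ∨ d ≠ 0) ∧ |c| ≤ m ∧ |d| ≤ m ∧ a * d - b * c = 0 ∧
        LP T (x + k * (Q * a)) (y + k * (Q * b)) R c d := by
  have hQm : 0 ≤ Q * m := by positivity
  have hQ1 : Q ≤ Q * m := by nlinarith
  have hm2 : Q * m ≤ Q * m ^ 2 := by nlinarith
  have hQa : |Q * a| ≤ Q * m := abs_mul_le (by rw [abs_of_pos hQ]) ha
  have hQb : |Q * b| ≤ Q * m := abs_mul_le (by rw [abs_of_pos hQ]) hb
  have hR1 : Q * m + Q ≤ R := by linarith
  have step : ∀ (σ : ℤ), |σ| ≤ 1 → ∀ u v : ℤ, (Defect T Q u v ∧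
      ∃ c d, (c ≠ 0 ∨ d ≠ 0) ∧ |c| ≤ m ∧ |d| ≤ m ∧ a * d - b * c = 0 ∧ LP T u v R c d) →
      (Defect T Q (u + σ * (Q * a)) (v + σ * (Q * b)) ∧
      ∃ c d, (c ≠ 0 ∨ d ≠ 0) ∧ |c| ≤ m ∧ |d| ≤ m ∧ a * d - b * c = 0 ∧
        LP T (u + σ * (Q * a)) (v + σ * (Q * b)) R c d) := by
    rintro σ hσ u v ⟨h1, c, d, hcd, hc, hd, hpar, h2⟩
    obtain ⟨j, hj1, hj2⟩ := multiple hm hQd hc hd hcd hpar
    have hs1 : |σ * (Q * a)| ≤ Q * m := by
      have := abs_mul_le hσ hQa
      rwa [one_mul] at this
    have hs2 : |σ * (Q * b)| ≤ Q * m := by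
      have := abs_mul_le hσ hQb
      rwa [one_mul] at this
    have e1 : σ * (Q * a) = σ * j * c := by rw [← hj1]; ring
    have e2 : σ * (Q * b) = σ * j * d := by rw [← hj2]; ring
    -- values of `T` at shifted places
    have shift : ∀ p q : ℤ, |p| ≤ Q → |q| ≤ Q →
        T (u + p) (v + q) = T (u + p + σ * (Q * a)) (v + q + σ * (Q * b)) := by
      intro p q hp hq
      rw [e1, e2]
      refine h2.walk' (σ * j) (u + p) (v + q) ?_ ?_ ?_ ?_
      · rw [show u + p - u = p by ring]; linarith
      · rw [show v + q - v = q by ring]; linarith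
      · rw [← e1, show u + p + σ * (Q * a) - u = p + σ * (Q * a) by ring]
        exact abs_three hp hs1 (by linarith)
      · rw [← e2, show v + q + σ * (Q * b) - v = q + σ * (Q * b) by ring]
        exact abs_three hq hs2 (by linarith)
    have hQQ : |Q| ≤ Q := by rw [abs_of_pos hQ]
    have h00 : |(0 : ℤ)| ≤ Q := by simpa using hQ.le
    have s0 := shift 0 0 h00 h00
    have s1 := shift Q 0 hQQ h00
    have s2 := shift 0 Q h00 hQQ
    simp only [add_zero] at s0 s1 s2
    have hdef' : Defect T Q (u + σ * (Q * a)) (v + σ * (Q * b)) := by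
      rcases h1 with h1 | h1
      · left
        rw [← s0, show u + σ * (Q * a) + Q = u + Q + σ * (Q * a) by ring, ← s1]
        exact h1
      · right
        rw [← s0, show v + σ * (Q * b) + Q = v + Q + σ * (Q * b) by ring, ← s2]
        exact h1
    refine ⟨hdef', ?_⟩
    obtain ⟨c', d', hcd', hc', hd', h3⟩ := hT (u + σ * (Q * a)) (v + σ * (Q * b))
    refine ⟨c', d', hcd', hc', hd', ?_, h3⟩
    have hp2 := parallel hm hQ hQd hc hd hc' hd' h2 h3 hdef'
      (by rw [show u + σ * (Q * a) - u = σ * (Q * a) by ring]; linarith)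
      (by rw [show v + σ * (Q * b) - v = σ * (Q * b) by ring]; linarith) hR
    exact par_trans hpar hp2 hcd
  induction k using Int.induction_on with
  | zero =>
    simp only [zero_mul, add_zero]
    exact ⟨hdef, a, b, hab, ha, hb, by ring, h⟩
  | succ i ih =>
    have := step 1 (by norm_num) _ _ ih
    rw [show x + ((i : ℤ) + 1) * (Q * a) = x + i * (Q * a) + 1 * (Q * a) by ring,
      show y + ((i : ℤ) + 1) * (Q * b) = y + i * (Q * b) + 1 * (Q * b) by ring]
    exact this
  | pred i ih =>
    have := step (-1) (by norm_num) _ _ ih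
    rw [show x + (-(i : ℤ) - 1) * (Q * a) = x + -(i : ℤ) * (Q * a) + -1 * (Q * a) by ring,
      show y + (-(i : ℤ) - 1) * (Q * b) = y + -(i : ℤ) * (Q * b) + -1 * (Q * b) by ring]
    exact this

/-- Two nonparallel lines of lattice points come close to each other. -/
theorem lines_meet (a b c d x y C : ℤ) (hdet : a * d - b * c ≠ 0) (ha : |a| ≤ C) (hb : |b| ≤ C)
    (hc : |c| ≤ C) (hd : |d| ≤ C) :
    ∃ k l : ℤ, |x + k * a - l * c| ≤ 2 * C ∧ |y + k * b - l * d| ≤ 2 * C := by
  set δ := a * d - b * c with hδ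
  -- `δ x = (x d - y c) a + (a y - b x) c`
  set P := x * d - y * c with hP
  set S := a * y - b * x with hS
  have hx : δ * x = P * a + S * c := by rw [hδ, hP, hS]; ring
  have hy : δ * y = P * b + S * d := by rw [hδ, hP, hS]; ring
  refine ⟨-(P / δ), S / δ, ?_, ?_⟩
  · have e1 : δ * (x + -(P / δ) * a - S / δ * c) = (P % δ) * a + (S % δ) * c := by
      have h1 := Int.emod_add_mul_ediv P δ
      have h2 := Int.emod_add_mul_ediv S δ
      calc δ * (x + -(P / δ) * a - S / δ * c) = δ * x - (δ * (P / δ)) * a - (δ * (S / δ)) * c := by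
            ring
        _ = (P - δ * (P / δ)) * a + (S - δ * (S / δ)) * c := by rw [hx]; ring
        _ = _ := by
          rw [show P - δ * (P / δ) = P % δ by linarith, show S - δ * (S / δ) = S % δ by linarith]
    have h3 : |P % δ| ≤ |δ| := by
      rw [abs_of_nonneg (Int.emod_nonneg _ hdet)]; exact (Int.emod_lt_abs _ hdet).le
    have h4 : |S % δ| ≤ |δ| := by
      rw [abs_of_nonneg (Int.emod_nonneg _ hdet)]; exact (Int.emod_lt_abs _ hdet).le
    have h5 : |δ| * |x + -(P / δ) * a - S / δ * c| ≤ |δ| * (2 * C) := by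
      rw [← abs_mul, e1]
      exact abs_three (abs_mul_le h3 ha) (abs_mul_le h4 hc) (by linarith)
    exact le_of_mul_le_mul_left h5 (abs_pos.2 hdet)
  · have e1 : δ * (y + -(P / δ) * b - S / δ * d) = (P % δ) * b + (S % δ) * d := by
      have h1 := Int.emod_add_mul_ediv P δ
      have h2 := Int.emod_add_mul_ediv S δ
      calc δ * (y + -(P / δ) * b - S / δ * d) = δ * y - (δ * (P / δ)) * b - (δ * (S / δ)) * d := by
            ring
        _ = (P - δ * (P / δ)) * b + (S - δ * (S / δ)) * d := by rw [hy]; ring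
        _ = _ := by
          rw [show P - δ * (P / δ) = P % δ by linarith, show S - δ * (S / δ) = S % δ by linarith]
    have h3 : |P % δ| ≤ |δ| := by
      rw [abs_of_nonneg (Int.emod_nonneg _ hdet)]; exact (Int.emod_lt_abs _ hdet).le
    have h4 : |S % δ| ≤ |δ| := by
      rw [abs_of_nonneg (Int.emod_nonneg _ hdet)]; exact (Int.emod_lt_abs _ hdet).le
    have h5 : |δ| * |y + -(P / δ) * b - S / δ * d| ≤ |δ| * (2 * C) := by
      rw [← abs_mul, e1]
      exact abs_three (abs_mul_le h3 hb) (abs_mul_le h4 hd) (by linarith)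
    exact le_of_mul_le_mul_left h5 (abs_pos.2 hdet)

/-- All defects have parallel local periods. -/
theorem defects_parallel {T : ℤ → ℤ → A} {R m Q : ℤ} (hm : 1 ≤ m) (hQ : 0 < Q)
    (hQd : ∀ e : ℤ, e ≠ 0 → |e| ≤ 2 * m ^ 2 → e ∣ Q) (hR : Q * m ^ 2 + 2 * (Q * m) ≤ R)
    (hT : LocPer T R m) {x y a b x' y' c d : ℤ} (hdef : Defect T Q x y) (hab : a ≠ 0 ∨ b ≠ 0)
    (ha : |a| ≤ m) (hb : |b| ≤ m) (h : LP T x y R a b) (hdef' : Defect T Q x' y')
    (hcd : c ≠ 0 ∨ d ≠ 0) (hc : |c| ≤ m) (hd : |d| ≤ m) (h' : LP T x' y' R c d) :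
    a * d - b * c = 0 := by
  by_contra hdet
  have hQa : |Q * a| ≤ Q * m := abs_mul_le (by rw [abs_of_pos hQ]) ha
  have hQb : |Q * b| ≤ Q * m := abs_mul_le (by rw [abs_of_pos hQ]) hb
  have hQc : |Q * c| ≤ Q * m := abs_mul_le (by rw [abs_of_pos hQ]) hc
  have hQd' : |Q * d| ≤ Q * m := abs_mul_le (by rw [abs_of_pos hQ]) hd
  obtain ⟨k, l, h1, h2⟩ := lines_meet (Q * a) (Q * b) (Q * c) (Q * d) (x - x') (y - y') (Q * m)
    (by
      rw [show Q * a * (Q * d) - Q * b * (Q * c) = Q ^ 2 * (a * d - b * c) by ring]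
      exact mul_ne_zero (by positivity) hdet) hQa hQb hQc hQd'
  obtain ⟨hD1, a', b', hab', ha', hb', hp1, hL1⟩ := defect_line hm hQ hQd hR hT hdef hab ha hb h k
  obtain ⟨hD2, c', d', hcd', hc', hd', hp2, hL2⟩ :=
    defect_line hm hQ hQd hR hT hdef' hcd hc hd h' l
  have hp3 := parallel hm hQ hQd hc' hd' ha' hb' hL2 hL1 hD1
    (by
      rw [show x + k * (Q * a) - (x' + l * (Q * c)) = x - x' + k * (Q * a) - l * (Q * c) by ring]
      exact h1)
    (by
      rw [show y + k * (Q * b) - (y' + l * (Q * d)) = y - y' + k * (Q * b) - l * (Q * d) by ring]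
      exact h2) hR
  -- (c,d) ∥ (c',d') ∥ (a',b') ∥ (a,b)
  have h3 : c * b' - d * a' = 0 := par_trans hp2 hp3 hcd'
  have h4 : a' * b - b' * a = 0 := by linarith
  have h5 : c * b - d * a = 0 := par_trans h3 h4 hab'
  exact hdet (by linarith)

/-- **Locally periodic configurations are periodic.** -/
theorem periodic_of_locPer {T : ℤ → ℤ → A} {R m Q : ℤ} (hm : 1 ≤ m) (hQ : 0 < Q)
    (hQd : ∀ e : ℤ, e ≠ 0 → |e| ≤ 2 * m ^ 2 → e ∣ Q) (hR : Q * m ^ 2 + 2 * (Q * m) ≤ R)
    (hT : LocPer T R m) :
    ∃ a b : ℤ, (a ≠ 0 ∨ b ≠ 0) ∧ |a| ≤ Q * m ∧ |b| ≤ Q * m ∧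
      ∀ x y, T x y = T (x + a) (y + b) := by
  have hQ1 : Q ≤ Q * m := by nlinarith
  by_cases hno : ∀ x y, ¬ Defect T Q x y
  · refine ⟨Q, 0, Or.inl hQ.ne', by rw [abs_of_pos hQ]; exact hQ1, by simp; positivity, ?_⟩
    intro x y
    have := hno x y
    unfold Defect at this
    push Not at this
    rw [add_zero]
    exact this.1
  push Not at hno
  obtain ⟨x₀, y₀, hdef₀⟩ := hno
  obtain ⟨a, b, hab, ha, hb, hL⟩ := hT x₀ y₀
  have hQa : |Q * a| ≤ Q * m := abs_mul_le (by rw [abs_of_pos hQ]) ha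
  have hQb : |Q * b| ≤ Q * m := abs_mul_le (by rw [abs_of_pos hQ]) hb
  refine ⟨Q * a, Q * b, ?_, hQa, hQb, ?_⟩
  · rcases hab with h | h
    · exact Or.inl (mul_ne_zero hQ.ne' h)
    · exact Or.inr (mul_ne_zero hQ.ne' h)
  intro x y
  by_cases hnear : ∃ x' y', Defect T Q x' y' ∧ |x' - x| ≤ Q * m ∧ |y' - y| ≤ Q * m
  · obtain ⟨x', y', hdef', hx, hy⟩ := hnear
    obtain ⟨c, d, hcd, hc, hd, hL'⟩ := hT x' y'
    have hpar := defects_parallel hm hQ hQd hR hT hdef₀ hab ha hb hL hdef' hcd hc hd hL'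
    obtain ⟨k, hk1, hk2⟩ := multiple hm hQd hc hd hcd hpar
    have hm2 : Q * m ≤ Q * m ^ 2 := by nlinarith
    have hx' : |x - x'| ≤ Q * m := by rwa [abs_sub_comm] at hx
    have hy' : |y - y'| ≤ Q * m := by rwa [abs_sub_comm] at hy
    have hQm : 0 ≤ Q * m := by positivity
    have := hL'.walk' k x y (by linarith) (by linarith)
      (by
        rw [hk1, show x + Q * a - x' = (x - x') + Q * a by ring]
        exact abs_three hx' hQa (by linarith))
      (by
        rw [hk2, show y + Q * b - y' = (y - y') + Q * b by ring]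
        exact abs_three hy' hQb (by linarith))
    rw [this, hk1, hk2]
  · push Not at hnear
    have hnd : ∀ x' y', |x' - x| ≤ Q * m → |y' - y| ≤ Q * m →
        T x' y' = T (x' + Q) y' ∧ T x' y' = T x' (y' + Q) := by
      intro x' y' h1 h2
      by_contra hcon
      have hdd : Defect T Q x' y' := by
        unfold Defect
        by_contra hc
        push Not at hc
        exact hcon hc
      have := hnear x' y' hdd h1
      omega
    -- horizontal walk
    have hor : ∀ (n : ℕ), (Q * n ≤ Q * m) → T x y = T (x + Q * n) y := by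
      intro n
      induction n with
      | zero => intro _; simp
      | succ n ih =>
        intro hn
        push_cast at hn ⊢
        have h1 : Q * (n : ℤ) ≤ Q * m := by nlinarith
        rw [ih h1]
        have := (hnd (x + Q * n) y (by
          rw [show x + Q * n - x = Q * n by ring, abs_of_nonneg (by positivity)]; exact h1)
          (by simpa using (by positivity : 0 ≤ Q * m))).1
        rw [this]
        congr 1
        ring
    have hor' : ∀ (n : ℕ), (Q * n ≤ Q * m) → T x y = T (x - Q * n) y := by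
      intro n
      induction n with
      | zero => intro _; simp
      | succ n ih =>
        intro hn
        push_cast at hn ⊢
        have h1 : Q * (n : ℤ) ≤ Q * m := by nlinarith
        rw [ih h1]
        have := (hnd (x - Q * (n + 1)) y (by
          rw [show x - Q * (n + 1) - x = -(Q * (n + 1)) by ring, abs_neg,
            abs_of_nonneg (by positivity)]; exact hn)
          (by simpa using (by positivity : 0 ≤ Q * m))).1
        rw [this]
        congr 1
        ring
    have ver : ∀ (n : ℕ) (u : ℤ), |u - x| ≤ Q * m → (Q * n ≤ Q * m) →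
        T u y = T u (y + Q * n) := by
      intro n
      induction n with
      | zero => intro _ _ _; simp
      | succ n ih =>
        intro u hu hn
        push_cast at hn ⊢
        have h1 : Q * (n : ℤ) ≤ Q * m := by nlinarith
        rw [ih u hu h1]
        have := (hnd u (y + Q * n) hu (by
          rw [show y + Q * n - y = Q * n by ring, abs_of_nonneg (by positivity)]; exact h1)).2
        rw [this]
        congr 1
        ring
    have ver' : ∀ (n : ℕ) (u : ℤ), |u - x| ≤ Q * m → (Q * n ≤ Q * m) →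
        T u y = T u (y - Q * n) := by
      intro n
      induction n with
      | zero => intro _ _ _; simp
      | succ n ih =>
        intro u hu hn
        push_cast at hn ⊢
        have h1 : Q * (n : ℤ) ≤ Q * m := by nlinarith
        rw [ih u hu h1]
        have := (hnd u (y - Q * (n + 1)) hu (by
          rw [show y - Q * (n + 1) - y = -(Q * (n + 1)) by ring, abs_neg,
            abs_of_nonneg (by positivity)]; exact hn)).2
        rw [this]
        congr 1
        ring
    have hQ0 : 0 ≤ Q := hQ.le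
    have H : T x y = T (x + Q * a) y := by
      rcases le_total 0 a with h0 | h0
      · obtain ⟨n, rfl⟩ := Int.eq_ofNat_of_zero_le h0
        exact hor n (by rw [abs_of_nonneg h0] at ha; exact mul_le_mul_of_nonneg_left ha hQ0)
      · obtain ⟨n, hn⟩ := Int.eq_ofNat_of_zero_le (show 0 ≤ -a by omega)
        have hk' : a = -(n : ℤ) := by omega
        subst hk'
        have := hor' n (by
          rw [abs_of_nonpos h0, neg_neg] at ha
          exact mul_le_mul_of_nonneg_left ha hQ0)
        rw [this]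
        congr 1
        ring
    have V : T (x + Q * a) y = T (x + Q * a) (y + Q * b) := by
      have hu : |x + Q * a - x| ≤ Q * m := by
        rw [show x + Q * a - x = Q * a by ring]; exact hQa
      rcases le_total 0 b with h0 | h0
      · obtain ⟨n, rfl⟩ := Int.eq_ofNat_of_zero_le h0
        exact ver n _ hu (by rw [abs_of_nonneg h0] at hb; exact mul_le_mul_of_nonneg_left hb hQ0)
      · obtain ⟨n, hn⟩ := Int.eq_ofNat_of_zero_le (show 0 ≤ -b by omega)
        have hk' : b = -(n : ℤ) := by omega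
        subst hk'
        have := ver' n (x + Q * a) hu (by
          rw [abs_of_nonpos h0, neg_neg] at hb
          exact mul_le_mul_of_nonneg_left hb hQ0)
        rw [this]
        congr 1
        ring
    rw [H, V]

end Pool.Agent.E8helper89.PT
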