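import Mathlib
import Pool.Agent.E8helper89.PT.Local

/-!
# A two-dimensional subshift all of whose points are periodic has a uniform bound on the periods

`A` is a finite alphabet, `X ⊆ A^{ℤ²}` closed and shift invariant, and every point of `X` has a
nonzero period.  Then there is one `N` such that every point of `X` has a nonzero period `v` with
`|v| ≤ N`.
-/

set_option autoImplicit false

namespace Pool.Agent.E8helper89.PT

variable {A : Type*}

/-- `T` has a nonzero period of size at most `N`. -/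
def Per (N : ℤ) (T : ℤ → ℤ → A) : Prop :=
  ∃ a b : ℤ, (a ≠ 0 ∨ b ≠ 0) ∧ |a| ≤ N ∧ |b| ≤ N ∧ ∀ x y, T x y = T (x + a) (y + b)

theorem Per.mono {M N : ℤ} (h : M ≤ N) {T : ℤ → ℤ → A} (hT : Per M T) : Per N T := by
  obtain ⟨a, b, h1, h2, h3, h4⟩ := hT
  exact ⟨a, b, h1, h2.trans h, h3.trans h, h4⟩

/-- The translate of a configuration. -/
def shift (u v : ℤ) (T : ℤ → ℤ → A) : ℤ → ℤ → A := fun x y => T (x + u) (y + v)

theorem Per.of_shift {N u v : ℤ} {T : ℤ → ℤ → A} (h : Per N (shift u v T)) : Per N T := by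
  obtain ⟨a, b, h1, h2, h3, h4⟩ := h
  refine ⟨a, b, h1, h2, h3, fun x y => ?_⟩
  have := h4 (x - u) (y - v)
  unfold shift at this
  rw [show x - u + u = x by ring, show y - v + v = y by ring,
    show x - u + a + u = x + a by ring, show y - v + b + v = y + b by ring] at this
  exact this

/-- Some choice of `Q` for `m`. -/
theorem exists_Q (m : ℤ) : ∃ Q : ℤ, 0 < Q ∧ ∀ e : ℤ, e ≠ 0 → |e| ≤ 2 * m ^ 2 → e ∣ Q := by
  refine ⟨((2 * m ^ 2).toNat.factorial : ℕ), by exact_mod_cast Nat.factorial_pos _, ?_⟩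
  intro e he h
  rw [← Int.natAbs_dvd]
  have h1 : e.natAbs ≤ (2 * m ^ 2).toNat := by
    rw [Int.abs_eq_natAbs] at h
    omega
  have h2 : 0 < e.natAbs := Int.natAbs_pos.2 he
  exact_mod_cast Nat.dvd_factorial h2 h1

section Top

variable [TopologicalSpace A] [DiscreteTopology A]

theorem continuous_eval (x y : ℤ) : Continuous fun T : ℤ → ℤ → A => T x y :=
  (continuous_apply y).comp (continuous_apply x)

theorem isClosed_per (N : ℤ) : IsClosed {T : ℤ → ℤ → A | Per N T} := by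
  have : {T : ℤ → ℤ → A | Per N T} = ⋃ p ∈ {p : ℤ × ℤ | (p.1 ≠ 0 ∨ p.2 ≠ 0) ∧ |p.1| ≤ N ∧ |p.2| ≤ N},
      ⋂ x, ⋂ y, {T : ℤ → ℤ → A | T x y = T (x + p.1) (y + p.2)} := by
    ext T
    simp only [Per, Set.mem_ofPred_eq, Set.mem_iUnion, Set.mem_iInter, Prod.exists, exists_prop]
    constructor
    · rintro ⟨a, b, h1, h2, h3, h4⟩
      exact ⟨a, b, ⟨h1, h2, h3⟩, h4⟩
    · rintro ⟨a, b, ⟨h1, h2, h3⟩, h4⟩
      exact ⟨a, b, h1, h2, h3, h4⟩
  rw [this]
  refine Set.Finite.isClosed_biUnion ?_ ?_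
  · refine ((Set.finite_Icc (-N) N).prod (Set.finite_Icc (-N) N)).subset ?_
    rintro ⟨a, b⟩ ⟨_, h1, h2⟩
    exact ⟨abs_le.1 h1, abs_le.1 h2⟩
  · intro p _
    refine isClosed_iInter fun x => isClosed_iInter fun y => ?_
    exact isClosed_eq (continuous_eval x y) (continuous_eval _ _)

/-- The set of configurations whose central window has no period of size at most `m` is closed. -/
theorem isClosed_noLP (R m : ℤ) : IsClosed {T : ℤ → ℤ → A |
    ∀ a b : ℤ, (a ≠ 0 ∨ b ≠ 0) → |a| ≤ m → |b| ≤ m → ¬ LP T 0 0 R a b} := by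
  have : {T : ℤ → ℤ → A | ∀ a b : ℤ, (a ≠ 0 ∨ b ≠ 0) → |a| ≤ m → |b| ≤ m → ¬ LP T 0 0 R a b} =
      ⋂ a : ℤ, ⋂ b : ℤ, ⋂ _ : (a ≠ 0 ∨ b ≠ 0), ⋂ _ : |a| ≤ m, ⋂ _ : |b| ≤ m,
        {T : ℤ → ℤ → A | LP T 0 0 R a b}ᶜ := by
    ext T
    simp only [Set.mem_ofPred_eq, Set.mem_iInter, Set.mem_compl_iff]
  rw [this]
  refine isClosed_iInter fun a => isClosed_iInter fun b => isClosed_iInter fun _ =>
    isClosed_iInter fun _ => isClosed_iInter fun _ => ?_
  rw [isClosed_compl_iff]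
  have h2 : {T : ℤ → ℤ → A | LP T 0 0 R a b} = ⋂ s ∈ Set.Icc (-R) R, ⋂ t ∈ Set.Icc (-R) R,
      {T : ℤ → ℤ → A | |s + a - 0| ≤ R → |t + b - 0| ≤ R → T s t = T (s + a) (t + b)} := by
    ext T
    simp only [LP, Set.mem_ofPred_eq, Set.mem_iInter, Set.mem_Icc]
    constructor
    · intro h s hs t ht h1 h2
      exact h s t (by rw [sub_zero]; exact abs_le.2 hs) (by rw [sub_zero]; exact abs_le.2 ht) h1 h2
    · intro h s t hs ht h1 h2
      rw [sub_zero] at hs ht
      exact h s (abs_le.1 hs) t (abs_le.1 ht) h1 h2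
  rw [h2]
  refine Set.Finite.isOpen_biInter (Set.finite_Icc _ _) fun s _ =>
    Set.Finite.isOpen_biInter (Set.finite_Icc _ _) fun t _ => ?_
  by_cases h3 : |s + a - 0| ≤ R ∧ |t + b - 0| ≤ R
  · have : {T : ℤ → ℤ → A | |s + a - 0| ≤ R → |t + b - 0| ≤ R → T s t = T (s + a) (t + b)} =
        (fun T : ℤ → ℤ → A => (T s t, T (s + a) (t + b))) ⁻¹' {p : A × A | p.1 = p.2} := by
      ext T
      simp only [Set.mem_ofPred_eq, Set.mem_preimage]
      exact ⟨fun h => h h3.1 h3.2, fun h _ _ => h⟩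
    rw [this]
    exact (isOpen_discrete _).preimage ((continuous_eval _ _).prodMk (continuous_eval _ _))
  · have : {T : ℤ → ℤ → A | |s + a - 0| ≤ R → |t + b - 0| ≤ R → T s t = T (s + a) (t + b)} =
        Set.univ := by
      ext T
      simp only [Set.mem_ofPred_eq, Set.mem_univ, iff_true]
      intro h4 h5
      exact absurd ⟨h4, h5⟩ h3
    rw [this]
    exact isOpen_univ

theorem continuous_shift (u v : ℤ) : Continuous (shift (A := A) u v) := by
  refine continuous_pi fun x => continuous_pi fun y => ?_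
  exact continuous_eval _ _

/-- **Uniform bound.** -/
theorem uniform_bound [Finite A] {X : Set (ℤ → ℤ → A)} (hcl : IsClosed X)
    (hsh : ∀ T ∈ X, ∀ u v, shift u v T ∈ X) (hper : ∀ T ∈ X, ∃ N, Per N T) :
    ∃ N : ℤ, ∀ T ∈ X, Per N T := by
  by_contra hcon
  -- the bad subshifts
  set 𝒮 : Set (Set (ℤ → ℤ → A)) := {Y | Y ⊆ X ∧ IsClosed Y ∧ (∀ T ∈ Y, ∀ u v, shift u v T ∈ Y) ∧
    ¬ ∃ N : ℤ, ∀ T ∈ Y, Per N T} with h𝒮
  have hX : X ∈ 𝒮 := ⟨subset_rfl, hcl, hsh, hcon⟩
  obtain ⟨Y, -, hmin⟩ := zorn_superset_nonempty 𝒮 (by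
    intro c hc hchain hne
    refine ⟨⋂₀ c, ?_, fun s hs => Set.sInter_subset_of_mem hs⟩
    obtain ⟨Y₀, hY₀⟩ := hne
    refine ⟨(Set.sInter_subset_of_mem hY₀).trans (hc hY₀).1,
      isClosed_sInter fun s hs => (hc hs).2.1, ?_, ?_⟩
    · intro T hT u v
      rw [Set.mem_sInter] at hT ⊢
      intro s hs
      exact (hc hs).2.2.1 T (hT s hs) u v
    · rintro ⟨N, hN⟩
      obtain ⟨m, hm1, hNm⟩ : ∃ m : ℤ, 1 ≤ m ∧ N ≤ m := ⟨max 1 N, le_max_left _ _, le_max_right _ _⟩
      obtain ⟨Q, hQ, hQd⟩ := exists_Q m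
      set R := Q * m ^ 2 + 2 * (Q * m) with hR
      set G : Set (ℤ → ℤ → A) := {T : ℤ → ℤ → A |
        ∀ a b : ℤ, (a ≠ 0 ∨ b ≠ 0) → |a| ≤ m → |b| ≤ m → ¬ LP T 0 0 R a b} with hG
      have hGc : IsClosed G := isClosed_noLP R m
      have : Nonempty ↑((fun Y => Y ∩ G) '' c) := ⟨⟨_, Set.mem_image_of_mem _ hY₀⟩⟩
      have hcompact := IsCompact.nonempty_sInter_of_directed_nonempty_isCompact_isClosed
        (S := (fun Y => Y ∩ G) '' c)
      by_cases hall : ∀ Z ∈ c, (Z ∩ G).Nonempty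
      · obtain ⟨T, hT⟩ := hcompact (by
          rintro _ ⟨Z₁, hZ₁, rfl⟩ _ ⟨Z₂, hZ₂, rfl⟩
          rcases hchain.total hZ₁ hZ₂ with h | h
          · exact ⟨_, ⟨Z₁, hZ₁, rfl⟩, subset_rfl, Set.inter_subset_inter_left _ h⟩
          · exact ⟨_, ⟨Z₂, hZ₂, rfl⟩, Set.inter_subset_inter_left _ h, subset_rfl⟩)
          (by rintro _ ⟨Z, hZ, rfl⟩; exact hall Z hZ)
          (by rintro _ ⟨Z, hZ, rfl⟩; exact ((hc hZ).2.1.inter hGc).isCompact)
          (by rintro _ ⟨Z, hZ, rfl⟩; exact (hc hZ).2.1.inter hGc)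
        have hTc : T ∈ ⋂₀ c := by
          rw [Set.mem_sInter]
          intro s hs
          exact (Set.mem_sInter.1 hT _ ⟨s, hs, rfl⟩).1
        have hTG : T ∈ G := (Set.mem_sInter.1 hT _ ⟨Y₀, hY₀, rfl⟩).2
        obtain ⟨a, b, h1, h2, h3, h4⟩ := hN T hTc
        exact hTG a b h1 (h2.trans hNm) (h3.trans hNm) (fun s t _ _ _ _ => h4 s t)
      · push Not at hall
        obtain ⟨Z, hZ, hZG⟩ := hall
        refine (hc hZ).2.2.2 ⟨Q * m, fun T hT => ?_⟩
        refine periodic_of_locPer (R := R) hm1 hQ hQd le_rfl ?_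
        intro x y
        by_contra hno
        push Not at hno
        have : shift x y T ∈ Z ∩ G := by
          refine ⟨(hc hZ).2.2.1 T hT x y, ?_⟩
          intro a b h1 h2 h3 h4
          refine hno a b h1 h2 h3 ?_
          intro s t h5 h6 h7 h8
          have := h4 (s - x) (t - y) (by simpa using h5) (by simpa using h6)
            (by rw [show s - x + a - 0 = s + a - x by ring]; exact h7)
            (by rw [show t - y + b - 0 = t + b - y by ring]; exact h8)
          unfold shift at this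
          rw [show s - x + x = s by ring, show t - y + y = t by ring,
            show s - x + a + x = s + a by ring, show t - y + b + y = t + b by ring] at this
          exact this
        rw [hZG] at this
        exact this) X hX
  obtain ⟨hYX, hYc, hYs, hYbad⟩ := hmin.prop
  have hYne : Y.Nonempty := by
    by_contra hne
    rw [Set.not_nonempty_iff_eq_empty] at hne
    exact hYbad ⟨0, by rw [hne]; simp⟩
  have : CompactSpace Y := isCompact_iff_compactSpace.1 hYc.isCompact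
  have : Nonempty Y := hYne.to_subtype
  obtain ⟨n, hn⟩ := nonempty_interior_of_iUnion_of_closed
    (f := fun n : ℕ => {T : Y | Per (n : ℤ) T.1})
    (fun n => (isClosed_per (n : ℤ)).preimage continuous_subtype_val) (by
      ext T
      simp only [Set.mem_iUnion, Set.mem_ofPred_eq, Set.mem_univ, iff_true]
      obtain ⟨N, hN⟩ := hper T.1 (hYX T.2)
      exact ⟨N.toNat, hN.mono (Int.self_le_toNat N)⟩)
  obtain ⟨U, hU, hUeq⟩ := isOpen_induced_iff.1 (isOpen_interior (s := {T : Y | Per (n : ℤ) T.1}))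
  -- the points of `Y` whose orbits miss `U`
  set Y₁ : Set (ℤ → ℤ → A) := Y ∩ ⋂ u, ⋂ v, shift u v ⁻¹' Uᶜ with hY₁
  have hY₁Y : Y₁ ⊆ Y := Set.inter_subset_left
  obtain ⟨T₀, hT₀⟩ := hn
  have hT₀U : T₀.1 ∈ U := by
    rw [← hUeq] at hT₀
    exact hT₀
  have hT₀n : T₀.1 ∉ Y₁ := by
    intro h
    have := Set.mem_iInter.1 (Set.mem_iInter.1 h.2 0) 0
    apply this
    have h0 : shift 0 0 T₀.1 = T₀.1 := by
      funext x y
      simp [shift]
    rw [h0]
    exact hT₀U
  by_cases hY₁bad : ∃ N : ℤ, ∀ T ∈ Y₁, Per N T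
  · obtain ⟨N₁, hN₁⟩ := hY₁bad
    refine hYbad ⟨max N₁ n, fun T hT => ?_⟩
    by_cases hTY : T ∈ Y₁
    · exact (hN₁ T hTY).mono (le_max_left _ _)
    · have : ∃ u v, shift u v T ∈ U := by
        by_contra hno
        push Not at hno
        exact hTY ⟨hT, Set.mem_iInter.2 fun u => Set.mem_iInter.2 fun v => hno u v⟩
      obtain ⟨u, v, huv⟩ := this
      have h1 : (⟨shift u v T, hYs T hT u v⟩ : Y) ∈ interior {T : Y | Per (n : ℤ) T.1} := by
        rw [← hUeq]
        exact huv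
      have h2 := interior_subset h1
      exact (Per.of_shift h2).mono (le_max_right _ _)
  · have hY₁S : Y₁ ∈ 𝒮 := by
      refine ⟨hY₁Y.trans hYX, hYc.inter (isClosed_iInter fun u => isClosed_iInter fun v =>
        hU.isClosed_compl.preimage (continuous_shift u v)), ?_, hY₁bad⟩
      rintro T ⟨hT1, hT2⟩ u v
      refine ⟨hYs T hT1 u v, Set.mem_iInter.2 fun u' => Set.mem_iInter.2 fun v' => ?_⟩
      have := Set.mem_iInter.1 (Set.mem_iInter.1 hT2 (u' + u)) (v' + v)
      have h3 : shift u' v' (shift u v T) = shift (u' + u) (v' + v) T := by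
        funext x y
        simp only [shift]
        congr 1 <;> ring
      rw [Set.mem_preimage, h3]
      exact this
    have := hmin.le_of_le hY₁S hY₁Y
    exact hT₀n (this T₀.2)

end Top

end Pool.Agent.E8helper89.PT
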