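import Mathlib
import Pool.Agent.E8helper89.PT.Unif
import Pool.Agent.E8helper89.PT.Defs

/-!
# Wang tilings, coded windows and compactness
-/

set_option autoImplicit false

namespace Pool.Agent.E8helper89.PT

/-- Every tiling is periodic. -/
def AllPeriodic (S : List Tile) : Prop := ∀ T, IsTiling S T → Periodic T

/-- There is a tiling. -/
def Admits (S : List Tile) : Prop := ∃ T, IsTiling S T

/-- The entries of a coded window of side `L`. -/
def Ent (L : ℕ) (l : List Tile) (i j : ℕ) : Tile := l.getD (i * L + j) (0, 0, 0, 0)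

/-- All lists of length `n` with entries in `S`. -/
def allLists (S : List Tile) : ℕ → List (List Tile)
  | 0 => [[]]
  | n + 1 => (allLists S n).flatMap fun l => S.map fun t => t :: l

theorem mem_allLists (S : List Tile) (n : ℕ) (l : List Tile) :
    l ∈ allLists S n ↔ l.length = n ∧ ∀ t ∈ l, t ∈ S := by
  induction n generalizing l with
  | zero =>
    simp only [allLists, List.mem_singleton, List.length_eq_zero_iff]
    constructor
    · rintro rfl; simp
    · exact fun h => h.1
  | succ n ih =>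
    simp only [allLists, List.mem_flatMap, List.mem_map]
    constructor
    · rintro ⟨l', hl', t, ht, rfl⟩
      obtain ⟨h1, h2⟩ := (ih l').1 hl'
      refine ⟨by simp [h1], ?_⟩
      intro u hu
      rcases List.mem_cons.1 hu with rfl | hu
      · exact ht
      · exact h2 u hu
    · rintro ⟨h1, h2⟩
      cases l with
      | nil => simp at h1
      | cons t l' =>
        refine ⟨l', (ih l').2 ⟨by simpa using h1, fun u hu => h2 u (List.mem_cons_of_mem _ hu)⟩, t,
          h2 t List.mem_cons_self, rfl⟩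

/-- The colours match inside the coded window. -/
def OK (L : ℕ) (l : List Tile) : Prop :=
  (∀ i < L, ∀ j < L, i + 1 < L → (Ent L l i j).right = (Ent L l (i + 1) j).left) ∧
    ∀ i < L, ∀ j < L, j + 1 < L → (Ent L l i j).top = (Ent L l i (j + 1)).bottom

/-- The coded window of `T` with corner `(x, y)` and side `L`. -/
def win (T : ℤ → ℤ → Tile) (x y : ℤ) (L : ℕ) : List Tile :=
  (List.range (L * L)).map fun k => T (x + (k / L : ℕ)) (y + (k % L : ℕ))

theorem idx_lt {L i j : ℕ} (hi : i < L) (hj : j < L) : i * L + j < L * L := by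
  calc i * L + j < i * L + L := by omega
    _ = (i + 1) * L := by ring
    _ ≤ L * L := Nat.mul_le_mul_right _ hi

theorem ent_win (T : ℤ → ℤ → Tile) (x y : ℤ) {L i j : ℕ} (hi : i < L) (hj : j < L) :
    Ent L (win T x y L) i j = T (x + i) (y + j) := by
  have h := idx_lt hi hj
  have hL : 0 < L := by omega
  unfold Ent win
  rw [List.getD_eq_getElem _ _ (by simpa using h)]
  simp only [List.getElem_map, List.getElem_range]
  rw [show (i * L + j) / L = i by
      rw [add_comm, Nat.add_mul_div_right _ _ hL, Nat.div_eq_of_lt hj, zero_add],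
    show (i * L + j) % L = j by
      rw [add_comm, Nat.add_mul_mod_self_right, Nat.mod_eq_of_lt hj]]

theorem win_mem {S : List Tile} {T : ℤ → ℤ → Tile} (hT : IsTiling S T) (x y : ℤ) (L : ℕ) :
    win T x y L ∈ allLists S (L * L) := by
  rw [mem_allLists]
  refine ⟨by simp [win], ?_⟩
  intro t ht
  unfold win at ht
  rw [List.mem_map] at ht
  obtain ⟨k, -, rfl⟩ := ht
  exact hT.1 _ _

theorem win_ok {S : List Tile} {T : ℤ → ℤ → Tile} (hT : IsTiling S T) (x y : ℤ) (L : ℕ) :
    OK L (win T x y L) := by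
  constructor
  · intro i hi j hj hi'
    rw [ent_win T x y hi hj, ent_win T x y hi' hj, hT.2.1]
    push_cast
    rw [add_assoc]
  · intro i hi j hj hj'
    rw [ent_win T x y hi hj, ent_win T x y hi hj', hT.2.2]
    push_cast
    rw [add_assoc]

/-- The partial configuration of a coded window of side `2 K + 1`, centred at the origin. -/
def ofWin (K : ℕ) (l : List Tile) : ℤ → ℤ → Tile :=
  fun x y => Ent (2 * K + 1) l (x + K).toNat (y + K).toNat

theorem ent_mem {S : List Tile} {L : ℕ} {l : List Tile} (hl : l ∈ allLists S (L * L)) {i j : ℕ}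
    (hi : i < L) (hj : j < L) : Ent L l i j ∈ S := by
  rw [mem_allLists] at hl
  unfold Ent
  rw [List.getD_eq_getElem _ _ (by rw [hl.1]; exact idx_lt hi hj)]
  exact hl.2 _ (List.getElem_mem _)

theorem ofWin_mem {S : List Tile} {K : ℕ} {l : List Tile}
    (hl : l ∈ allLists S ((2 * K + 1) * (2 * K + 1))) {x y : ℤ} (hx : |x| ≤ K) (hy : |y| ≤ K) :
    ofWin K l x y ∈ S := by
  rw [abs_le] at hx hy
  exact ent_mem hl (by omega) (by omega)

theorem ofWin_right {K : ℕ} {l : List Tile} (h : OK (2 * K + 1) l) {x y : ℤ} (hx : |x| ≤ K)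
    (hy : |y| ≤ K) (hx' : |x + 1| ≤ K) : (ofWin K l x y).right = (ofWin K l (x + 1) y).left := by
  rw [abs_le] at hx hy hx'
  have := h.1 (x + K).toNat (by omega) (y + K).toNat (by omega) (by omega)
  unfold ofWin
  rw [this, show (x + 1 + K).toNat = (x + K).toNat + 1 by omega]

theorem ofWin_top {K : ℕ} {l : List Tile} (h : OK (2 * K + 1) l) {x y : ℤ} (hx : |x| ≤ K)
    (hy : |y| ≤ K) (hy' : |y + 1| ≤ K) : (ofWin K l x y).top = (ofWin K l x (y + 1)).bottom := by
  rw [abs_le] at hx hy hy'
  have := h.2 (x + K).toNat (by omega) (y + K).toNat (by omega) (by omega)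
  unfold ofWin
  rw [this, show (y + 1 + K).toNat = (y + K).toNat + 1 by omega]

/-- Compactness. -/
theorem exists_limit (S : List Tile) (F : ℕ → ℤ → ℤ → Tile)
    (hF : ∀ (K : ℕ) (x y : ℤ), |x| ≤ K → |y| ≤ K → F K x y ∈ S) :
    ∃ T : ℤ → ℤ → Tile, ∀ R K₀ : ℕ, ∃ K ≥ K₀, ∀ x y : ℤ, |x| ≤ R → |y| ≤ R → F K x y = T x y := by
  set U : Ultrafilter ℕ := Filter.hyperfilter ℕ with hU
  have hlarge : ∀ K₀ : ℕ, ∀ᶠ K in (U : Filter ℕ), K₀ ≤ K := by
    intro K₀
    have h1 : ∀ᶠ K in Filter.cofinite, K₀ ≤ K := by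
      rw [Nat.cofinite_eq_atTop]
      exact Filter.eventually_ge_atTop K₀
    exact h1.filter_mono Filter.hyperfilter_le_cofinite
  have h1 : ∀ x y : ℤ, ∃ t : Tile, ∀ᶠ K in (U : Filter ℕ), F K x y = t := by
    intro x y
    have h2 : ∀ᶠ K in (U : Filter ℕ), ∃ t ∈ {t | t ∈ S}, F K x y = t := by
      filter_upwards [hlarge (x.natAbs + y.natAbs)] with K hK
      exact ⟨F K x y, hF K x y (by rw [abs_le]; omega) (by rw [abs_le]; omega), rfl⟩
    rw [Ultrafilter.eventually_exists_mem_iff (List.finite_toSet S)] at h2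
    obtain ⟨t, -, ht⟩ := h2
    exact ⟨t, ht⟩
  choose T hT using h1
  refine ⟨T, fun R K₀ => ?_⟩
  have h2 : ∀ᶠ K in (U : Filter ℕ), ∀ p ∈ (Set.Icc (-(R : ℤ)) R ×ˢ Set.Icc (-(R : ℤ)) R),
      F K p.1 p.2 = T p.1 p.2 := by
    rw [Filter.eventually_all_finite ((Set.finite_Icc _ _).prod (Set.finite_Icc _ _))]
    intro p _
    exact hT p.1 p.2
  obtain ⟨K, hK1, hK2⟩ := (h2.and (hlarge K₀)).exists
  refine ⟨K, hK2, fun x y hx hy => ?_⟩
  exact hK1 (x, y) ⟨abs_le.1 hx, abs_le.1 hy⟩

/-- Larger and larger windows give a tiling. -/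
theorem tiling_of_windows (S : List Tile) (F : ℕ → List Tile)
    (hF : ∀ K, F K ∈ allLists S ((2 * K + 1) * (2 * K + 1))) (hF' : ∀ K, OK (2 * K + 1) (F K)) :
    ∃ T : ℤ → ℤ → Tile, IsTiling S T ∧
      ∀ R K₀ : ℕ, ∃ K ≥ K₀, ∀ x y : ℤ, |x| ≤ R → |y| ≤ R → ofWin K (F K) x y = T x y := by
  obtain ⟨T, hT⟩ := exists_limit S (fun K => ofWin K (F K)) (fun K x y hx hy =>
    ofWin_mem (hF K) hx hy)
  refine ⟨T, ⟨fun x y => ?_, fun x y => ?_, fun x y => ?_⟩, hT⟩
  · obtain ⟨K, hK, h⟩ := hT (x.natAbs + y.natAbs) (x.natAbs + y.natAbs)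
    rw [← h x y (by rw [abs_le]; omega) (by rw [abs_le]; omega)]
    exact ofWin_mem (hF K) (by rw [abs_le]; omega) (by rw [abs_le]; omega)
  · obtain ⟨K, hK, h⟩ := hT (x.natAbs + y.natAbs + 1) (x.natAbs + y.natAbs + 1)
    rw [← h x y (by rw [abs_le]; omega) (by rw [abs_le]; omega), ← h (x + 1) y (by rw [abs_le]; omega) (by rw [abs_le]; omega)]
    exact ofWin_right (hF' K) (by rw [abs_le]; omega) (by rw [abs_le]; omega) (by rw [abs_le]; omega)
  · obtain ⟨K, hK, h⟩ := hT (x.natAbs + y.natAbs + 1) (x.natAbs + y.natAbs + 1)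
    rw [← h x y (by rw [abs_le]; omega) (by rw [abs_le]; omega), ← h x (y + 1) (by rw [abs_le]; omega) (by rw [abs_le]; omega)]
    exact ofWin_top (hF' K) (by rw [abs_le]; omega) (by rw [abs_le]; omega) (by rw [abs_le]; omega)

/-- `S` admits a tiling iff it admits arbitrarily large windows. -/
theorem admits_iff (S : List Tile) :
    Admits S ↔ ∀ K : ℕ, ∃ l ∈ allLists S ((2 * K + 1) * (2 * K + 1)), OK (2 * K + 1) l := by
  constructor
  · rintro ⟨T, hT⟩ K
    exact ⟨win T 0 0 (2 * K + 1), win_mem hT 0 0 _, win_ok hT 0 0 _⟩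
  · intro h
    choose F hF hF' using h
    obtain ⟨T, hT, -⟩ := tiling_of_windows S F hF hF'
    exact ⟨T, hT⟩

/-- The periodicity test for the subwindow with corner `(o, o)` and side `s`. -/
def PerTest (L : ℕ) (l : List Tile) (o s m : ℕ) : Prop :=
  ∃ a < m + 1, ∃ b < m + 1, (a ≠ 0 ∨ b ≠ 0) ∧
    ((∀ i < s, ∀ j < s, i + a < s → j + b < s →
        Ent L l (o + i) (o + j) = Ent L l (o + i + a) (o + j + b)) ∨
      ∀ i < s, ∀ j < s, i + a < s → j + b < s →
        Ent L l (o + i) (o + j + b) = Ent L l (o + i + a) (o + j))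

/-- The certificates for the periodicity of all tilings. -/
def Cert (S : List Tile) (m Q R K : ℕ) : Prop :=
  1 ≤ m ∧ 0 < Q ∧ (∀ d < 2 * (m * m) + 1, d ≠ 0 → Q % d = 0) ∧
    Q * (m * m) + 2 * (Q * m) ≤ R ∧ R ≤ K ∧
    ∀ l ∈ allLists S ((2 * K + 1) * (2 * K + 1)), OK (2 * K + 1) l →
      PerTest (2 * K + 1) l (K - R) (2 * R + 1) m

theorem per_of_cert {S : List Tile} {m Q R K : ℕ} (h : Cert S m Q R K) {T : ℤ → ℤ → Tile}
    (hT : IsTiling S T) : Per ((Q : ℤ) * m) T := by
  obtain ⟨hm, hQ, hQd, hR, hRK, hw⟩ := h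
  refine periodic_of_locPer (R := R) (by exact_mod_cast hm) (by exact_mod_cast hQ) ?_
    (by push_cast [pow_two]; exact_mod_cast hR) ?_
  · intro e he h
    rw [← Int.natAbs_dvd]
    have h1 : e.natAbs < 2 * (m * m) + 1 := by
      rw [Int.abs_eq_natAbs] at h
      have : (e.natAbs : ℤ) ≤ ((2 * (m * m) : ℕ) : ℤ) := by
        push_cast
        rw [Int.abs_eq_natAbs]
        nlinarith
      omega
    have h2 := hQd e.natAbs h1 (by omega)
    exact_mod_cast Nat.dvd_of_mod_eq_zero h2
  · intro x y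
    obtain ⟨a, ha, b, hb, hab, htest⟩ := hw (win T (x - K) (y - K) (2 * K + 1)) (win_mem hT _ _ _)
      (win_ok hT _ _ _)
    have hent : ∀ i j : ℕ, i < 2 * R + 1 → j < 2 * R + 1 →
        Ent (2 * K + 1) (win T (x - K) (y - K) (2 * K + 1)) (K - R + i) (K - R + j) =
          T (x - R + i) (y - R + j) := by
      intro i j hi hj
      rw [ent_win T _ _ (by omega) (by omega)]
      congr 1 <;> omega
    rcases htest with htest | htest
    · refine ⟨a, b, by omega, by rw [abs_le]; omega, by rw [abs_le]; omega, ?_⟩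
      intro s t hs ht hs' ht'
      rw [abs_le] at hs ht hs' ht'
      have := htest (s - x + R).toNat (by omega) (t - y + R).toNat (by omega) (by omega) (by omega)
      rw [add_assoc (K - R), add_assoc (K - R), hent _ _ (by omega) (by omega),
        hent _ _ (by omega) (by omega)] at this
      convert this using 2 <;> omega
    · refine ⟨a, -b, by omega, by rw [abs_le]; omega, by rw [abs_le]; omega, ?_⟩
      intro s t hs ht hs' ht'
      rw [abs_le] at hs ht hs' ht'
      have := htest (s - x + R).toNat (by omega) (t - b - y + R).toNat (by omega) (by omega)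
        (by omega)
      rw [add_assoc (K - R), add_assoc (K - R), hent _ _ (by omega) (by omega),
        hent _ _ (by omega) (by omega)] at this
      convert this using 2 <;> omega

/-- The uniform bound for tile sets. -/
theorem tile_bound {S : List Tile} (hS : AllPeriodic S) :
    ∃ N : ℤ, ∀ T, IsTiling S T → Per N T := by
  classical
  let A := {t : Tile // t ∈ S}
  have : Finite A := (List.finite_toSet S).to_subtype
  let _ : TopologicalSpace A := ⊥
  have : DiscreteTopology A := ⟨rfl⟩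
  set X : Set (ℤ → ℤ → A) := {T | IsTiling S fun x y => (T x y).1} with hX
  have hXc : IsClosed X := by
    have : X = (⋂ x : ℤ, ⋂ y : ℤ, (fun T : ℤ → ℤ → A => (T x y, T (x + 1) y)) ⁻¹'
          {p : A × A | p.1.1.right = p.2.1.left}) ∩
        ⋂ x : ℤ, ⋂ y : ℤ, (fun T : ℤ → ℤ → A => (T x y, T x (y + 1))) ⁻¹'
          {p : A × A | p.1.1.top = p.2.1.bottom} := by
      ext T
      simp only [hX, IsTiling, Set.mem_ofPred_eq, Set.mem_inter_iff, Set.mem_iInter,
        Set.mem_preimage]
      exact ⟨fun h => h.2, fun h => ⟨fun x y => (T x y).2, h⟩⟩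
    rw [this]
    refine IsClosed.inter ?_ ?_
    · exact isClosed_iInter fun x => isClosed_iInter fun y => (isClosed_discrete _).preimage
        ((continuous_eval _ _).prodMk (continuous_eval _ _))
    · exact isClosed_iInter fun x => isClosed_iInter fun y => (isClosed_discrete _).preimage
        ((continuous_eval _ _).prodMk (continuous_eval _ _))
  obtain ⟨N, hN⟩ := uniform_bound hXc (by
    rintro T ⟨h1, h2, h3⟩ u v
    refine ⟨fun x y => h1 _ _, fun x y => ?_, fun x y => ?_⟩
    · have := h2 (x + u) (y + v)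
      simp only [shift]
      rw [this, show x + u + 1 = x + 1 + u by ring]
    · have := h3 (x + u) (y + v)
      simp only [shift]
      rw [this, show y + v + 1 = y + 1 + v by ring]) (by
    intro T hT
    obtain ⟨a, b, hab, h⟩ := hS _ hT
    refine ⟨max |a| |b|, a, b, hab, le_max_left _ _, le_max_right _ _, fun x y => ?_⟩
    exact Subtype.ext (h x y).symm)
  refine ⟨N, fun T hT => ?_⟩
  obtain ⟨a, b, h1, h2, h3, h4⟩ := hN (fun x y => ⟨T x y, hT.1 x y⟩) hT
  exact ⟨a, b, h1, h2, h3, fun x y => congrArg Subtype.val (h4 x y)⟩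

theorem cert_of_allPeriodic {S : List Tile} (hS : AllPeriodic S) :
    ∃ m Q R K : ℕ, Cert S m Q R K := by
  obtain ⟨N, hN⟩ := tile_bound hS
  set m : ℕ := max 1 N.toNat with hm
  have hm1 : 1 ≤ m := le_max_left _ _
  have hNm : N ≤ m := by
    have : N.toNat ≤ m := le_max_right _ _
    omega
  set Q : ℕ := (2 * (m * m)).factorial with hQ
  set R : ℕ := Q * (m * m) + 2 * (Q * m) with hR
  by_contra hcon
  push Not at hcon
  have h1 : ∀ K : ℕ, ∃ l ∈ allLists S ((2 * (R + K) + 1) * (2 * (R + K) + 1)),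
      OK (2 * (R + K) + 1) l ∧ ¬ PerTest (2 * (R + K) + 1) l K (2 * R + 1) m := by
    intro K
    have h2 := hcon m Q R (R + K)
    unfold Cert at h2
    by_contra h3
    push Not at h3
    apply h2
    refine ⟨hm1, Nat.factorial_pos _, ?_, le_rfl, by omega, ?_⟩
    · intro d hd hd0
      exact Nat.mod_eq_zero_of_dvd (Nat.dvd_factorial (Nat.pos_of_ne_zero hd0) (by omega))
    · intro l hl hok
      rw [show R + K - R = K by omega]
      exact h3 l hl hok
  -- windows for every `K`
  have h2 : ∀ K : ℕ, ∃ l ∈ allLists S ((2 * K + 1) * (2 * K + 1)), OK (2 * K + 1) l ∧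
      (R ≤ K → ¬ PerTest (2 * K + 1) l (K - R) (2 * R + 1) m) := by
    intro K
    by_cases hK : R ≤ K
    · obtain ⟨l, h3, h4, h5⟩ := h1 (K - R)
      rw [show R + (K - R) = K by omega] at h3 h4 h5
      exact ⟨l, h3, h4, fun _ => h5⟩
    · have hadm : Admits S := by
        rw [admits_iff]
        intro K'
        obtain ⟨l, h3, h4, -⟩ := h1 K'
        -- a subwindow
        set T := ofWin (R + K') l with hTdef
        refine ⟨win T (-(K' : ℤ)) (-(K' : ℤ)) (2 * K' + 1), ?_, ?_⟩
        · rw [mem_allLists]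
          refine ⟨by simp [win], ?_⟩
          intro t ht
          unfold win at ht
          rw [List.mem_map] at ht
          obtain ⟨k, hk, rfl⟩ := ht
          rw [List.mem_range] at hk
          have e1 : k / (2 * K' + 1) < 2 * K' + 1 := Nat.div_lt_of_lt_mul hk
          have e2 : k % (2 * K' + 1) < 2 * K' + 1 := Nat.mod_lt _ (by omega)
          generalize k / (2 * K' + 1) = u at e1
          generalize k % (2 * K' + 1) = v at e2
          exact ofWin_mem h3 (by rw [abs_le]; omega) (by rw [abs_le]; omega)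
        · constructor
          · intro i hi j hj hi'
            rw [ent_win T _ _ hi hj, ent_win T _ _ hi' hj]
            rw [hTdef, ofWin_right h4 (by rw [abs_le]; omega) (by rw [abs_le]; omega) (by rw [abs_le]; omega)]
            congr 2
            push_cast
            ring
          · intro i hi j hj hj'
            rw [ent_win T _ _ hi hj, ent_win T _ _ hi hj']
            rw [hTdef, ofWin_top h4 (by rw [abs_le]; omega) (by rw [abs_le]; omega) (by rw [abs_le]; omega)]
            congr 2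
            push_cast
            ring
      obtain ⟨l, h3, h4⟩ := (admits_iff S).1 hadm K
      exact ⟨l, h3, h4, fun h => absurd h hK⟩
  choose F hF1 hF2 hF3 using h2
  obtain ⟨T, hT, hlim⟩ := tiling_of_windows S F hF1 hF2
  obtain ⟨a, b, hab, ha, hb, hper⟩ := (hN T hT).mono hNm
  obtain ⟨K, hK, hKT⟩ := hlim R R
  apply hF3 K hK
  have hent : ∀ i j : ℕ, i < 2 * R + 1 → j < 2 * R + 1 →
      Ent (2 * K + 1) (F K) (K - R + i) (K - R + j) = T (i - R) (j - R) := by
    intro i j hi hj
    rw [← hKT _ _ (by rw [abs_le]; omega) (by rw [abs_le]; omega)]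
    unfold ofWin
    congr 1 <;> omega
  -- may assume `0 ≤ a`
  obtain ⟨a', b', hab', ha0, ha', hb', hper'⟩ : ∃ a' b' : ℤ, (a' ≠ 0 ∨ b' ≠ 0) ∧ 0 ≤ a' ∧
      a' ≤ m ∧ |b'| ≤ m ∧ ∀ x y, T x y = T (x + a') (y + b') := by
    rw [abs_le] at ha hb
    rcases le_total 0 a with h | h
    · exact ⟨a, b, hab, h, ha.2, abs_le.2 hb, hper⟩
    · refine ⟨-a, -b, by omega, by omega, by omega, by rw [abs_neg]; exact abs_le.2 hb,
        fun x y => ?_⟩
      rw [hper (x + -a) (y + -b)]
      congr 1 <;> ring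
  rw [abs_le] at hb'
  refine ⟨a'.toNat, by omega, b'.natAbs, by omega, by omega, ?_⟩
  rcases le_total 0 b' with h | h
  · left
    intro i hi j hj hi' hj'
    rw [add_assoc (K - R), add_assoc (K - R), hent _ _ hi hj, hent _ _ (by omega) (by omega),
      hper' _ _]
    congr 1 <;> omega
  · right
    intro i hi j hj hi' hj'
    rw [add_assoc (K - R), add_assoc (K - R), hent _ _ hi (by omega), hent _ _ (by omega) hj,
      hper' _ _]
    congr 1 <;> omega

theorem allPeriodic_iff (S : List Tile) : AllPeriodic S ↔ ∃ m Q R K : ℕ, Cert S m Q R K := by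
  constructor
  · exact cert_of_allPeriodic
  · rintro ⟨m, Q, R, K, h⟩ T hT
    obtain ⟨a, b, hab, -, -, hper⟩ := per_of_cert h hT
    exact ⟨a, b, hab, fun x y => (hper x y).symm⟩

end Pool.Agent.E8helper89.PT
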