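import Mathlib
import Pool.Agent.E8helper89.PT.Tiles

/-!
# The certificates are primitive recursive; the arithmetical hierarchy
-/

set_option autoImplicit false

namespace Pool.Agent.E8helper89.PT

open Primrec

section General

variable {α : Type} [Primcodable α] {β : Type} [Primcodable β]

theorem pall_lt {f : α → ℕ} {P : α → ℕ → Prop} (hf : Primrec f)
    (hP : PrimrecPred fun p : α × ℕ => P p.1 p.2) : PrimrecPred fun x => ∀ i < f x, P x i := by
  have h1 : PrimrecRel fun (i : ℕ) (x : α) => P x i := hP.comp (snd.pair fst)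
  exact ((h1.forall_mem_list).comp (list_range.comp hf) Primrec.id).of_eq (by simp)

theorem pex_lt {f : α → ℕ} {P : α → ℕ → Prop} (hf : Primrec f)
    (hP : PrimrecPred fun p : α × ℕ => P p.1 p.2) : PrimrecPred fun x => ∃ i < f x, P x i := by
  have h1 : PrimrecRel fun (i : ℕ) (x : α) => P x i := hP.comp (snd.pair fst)
  exact ((h1.exists_mem_list).comp (list_range.comp hf) Primrec.id).of_eq (by simp)

theorem pall_mem {f : α → List β} {P : α → β → Prop} (hf : Primrec f)
    (hP : PrimrecPred fun p : α × β => P p.1 p.2) : PrimrecPred fun x => ∀ i ∈ f x, P x i := by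
  have h1 : PrimrecRel fun (i : β) (x : α) => P x i := hP.comp (snd.pair fst)
  exact (h1.forall_mem_list).comp hf Primrec.id

theorem pimp {p q : α → Prop} (hp : PrimrecPred p) (hq : PrimrecPred q) :
    PrimrecPred fun x => p x → q x :=
  (hp.not.or hq).of_eq fun x => by tauto

theorem padd {f g : α → ℕ} (hf : Primrec f) (hg : Primrec g) : Primrec fun x => f x + g x :=
  nat_add.comp hf hg

theorem psub {f g : α → ℕ} (hf : Primrec f) (hg : Primrec g) : Primrec fun x => f x - g x :=
  nat_sub.comp hf hg

theorem pmul {f g : α → ℕ} (hf : Primrec f) (hg : Primrec g) : Primrec fun x => f x * g x :=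
  nat_mul.comp hf hg

theorem pent {L i j : α → ℕ} {l : α → List Tile} (hL : Primrec L) (hl : Primrec l)
    (hi : Primrec i) (hj : Primrec j) : Primrec fun x => Ent (L x) (l x) (i x) (j x) :=
  (list_getD ((0, 0, 0, 0) : Tile)).comp hl (padd (pmul hi hL) hj)

theorem pright {f : α → Tile} (hf : Primrec f) : Primrec fun x => (f x).right :=
  fst.comp (snd.comp hf)

theorem pleft {f : α → Tile} (hf : Primrec f) : Primrec fun x => (f x).left :=
  fst.comp hf

theorem pbottom {f : α → Tile} (hf : Primrec f) : Primrec fun x => (f x).bottom :=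
  fst.comp (snd.comp (snd.comp hf))

theorem ptop {f : α → Tile} (hf : Primrec f) : Primrec fun x => (f x).top :=
  snd.comp (snd.comp (snd.comp hf))

theorem pOK {L : α → ℕ} {l : α → List Tile} (hL : Primrec L) (hl : Primrec l) :
    PrimrecPred fun x => OK (L x) (l x) := by
  refine PrimrecPred.and ?_ ?_
  · refine pall_lt hL (pall_lt (hL.comp fst) (pimp ?_ ?_))
    · exact nat_lt.comp (padd (snd.comp fst) (const 1)) (hL.comp (fst.comp fst))
    · exact Primrec.eq.comp
        (pright (pent (hL.comp (fst.comp fst)) (hl.comp (fst.comp fst)) (snd.comp fst) snd))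
        (pleft (pent (hL.comp (fst.comp fst)) (hl.comp (fst.comp fst))
          (padd (snd.comp fst) (const 1)) snd))
  · refine pall_lt hL (pall_lt (hL.comp fst) (pimp ?_ ?_))
    · exact nat_lt.comp (padd snd (const 1)) (hL.comp (fst.comp fst))
    · exact Primrec.eq.comp
        (ptop (pent (hL.comp (fst.comp fst)) (hl.comp (fst.comp fst)) (snd.comp fst) snd))
        (pbottom (pent (hL.comp (fst.comp fst)) (hl.comp (fst.comp fst))
          (snd.comp fst) (padd snd (const 1))))

theorem pPerTest {L o s m : α → ℕ} {l : α → List Tile} (hL : Primrec L) (hl : Primrec l)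
    (ho : Primrec o) (hs : Primrec s) (hm : Primrec m) :
    PrimrecPred fun x => PerTest (L x) (l x) (o x) (s x) (m x) := by
  unfold PerTest
  refine pex_lt (padd hm (const 1)) ?_
  have f1 : Primrec fun p : α × ℕ => p.1 := fst
  refine pex_lt (padd (hm.comp fst) (const 1)) ?_
  -- context `(x, a), b`
  refine PrimrecPred.and ?_ (PrimrecPred.or ?_ ?_)
  · exact PrimrecPred.or (PrimrecPred.not (Primrec.eq.comp (snd.comp fst) (const 0)))
      (PrimrecPred.not (Primrec.eq.comp snd (const 0)))
  · refine pall_lt (hs.comp (fst.comp fst)) (pall_lt (hs.comp (fst.comp (fst.comp fst)))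
      (pimp ?_ (pimp ?_ ?_)))
    -- context `(((x, a), b), i), j`
    · exact nat_lt.comp (padd (snd.comp fst) (snd.comp (fst.comp (fst.comp fst))))
        (hs.comp (fst.comp (fst.comp (fst.comp fst))))
    · exact nat_lt.comp (padd snd (snd.comp (fst.comp fst)))
        (hs.comp (fst.comp (fst.comp (fst.comp fst))))
    · exact Primrec.eq.comp
        (pent (hL.comp (fst.comp (fst.comp (fst.comp fst))))
          (hl.comp (fst.comp (fst.comp (fst.comp fst))))
          (padd (ho.comp (fst.comp (fst.comp (fst.comp fst)))) (snd.comp fst))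
          (padd (ho.comp (fst.comp (fst.comp (fst.comp fst)))) snd))
        (pent (hL.comp (fst.comp (fst.comp (fst.comp fst))))
          (hl.comp (fst.comp (fst.comp (fst.comp fst))))
          (padd (padd (ho.comp (fst.comp (fst.comp (fst.comp fst)))) (snd.comp fst))
            (snd.comp (fst.comp (fst.comp fst))))
          (padd (padd (ho.comp (fst.comp (fst.comp (fst.comp fst)))) snd)
            (snd.comp (fst.comp fst))))
  · refine pall_lt (hs.comp (fst.comp fst)) (pall_lt (hs.comp (fst.comp (fst.comp fst)))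
      (pimp ?_ (pimp ?_ ?_)))
    · exact nat_lt.comp (padd (snd.comp fst) (snd.comp (fst.comp (fst.comp fst))))
        (hs.comp (fst.comp (fst.comp (fst.comp fst))))
    · exact nat_lt.comp (padd snd (snd.comp (fst.comp fst)))
        (hs.comp (fst.comp (fst.comp (fst.comp fst))))
    · exact Primrec.eq.comp
        (pent (hL.comp (fst.comp (fst.comp (fst.comp fst))))
          (hl.comp (fst.comp (fst.comp (fst.comp fst))))
          (padd (ho.comp (fst.comp (fst.comp (fst.comp fst)))) (snd.comp fst))
          (padd (padd (ho.comp (fst.comp (fst.comp (fst.comp fst)))) snd)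
            (snd.comp (fst.comp fst))))
        (pent (hL.comp (fst.comp (fst.comp (fst.comp fst))))
          (hl.comp (fst.comp (fst.comp (fst.comp fst))))
          (padd (padd (ho.comp (fst.comp (fst.comp (fst.comp fst)))) (snd.comp fst))
            (snd.comp (fst.comp (fst.comp fst))))
          (padd (ho.comp (fst.comp (fst.comp (fst.comp fst)))) snd))

theorem pallLists {f : α → List Tile} {g : α → ℕ} (hf : Primrec f) (hg : Primrec g) :
    Primrec fun x => allLists (f x) (g x) := by
  have h0 : Primrec₂ fun (x : α) (p : ℕ × List (List Tile)) =>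
      p.2.flatMap fun l => (f x).map fun t => t :: l := by
    refine Primrec.list_flatMap (snd.comp snd) ?_
    refine Primrec.list_map (hf.comp (fst.comp fst)) ?_
    exact list_cons.comp snd (snd.comp fst)
  have h1 : Primrec fun x : α => Nat.rec (motive := fun _ => List (List Tile)) [[]]
      (fun _ ih => ih.flatMap fun l => (f x).map fun t => t :: l) (g x) :=
    Primrec.nat_rec' hg (const ([[]] : List (List Tile))) h0
  refine h1.of_eq fun x => ?_
  induction g x with
  | zero => rfl
  | succ n ih => simp only [allLists, ← ih]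

/-- The certificate predicate. -/
theorem pCert : PrimrecPred fun p : List Tile × (ℕ × ℕ × ℕ × ℕ) =>
    Cert p.1 p.2.1 p.2.2.1 p.2.2.2.1 p.2.2.2.2 := by
  have hm : Primrec fun p : List Tile × (ℕ × ℕ × ℕ × ℕ) => p.2.1 := fst.comp snd
  have hQ : Primrec fun p : List Tile × (ℕ × ℕ × ℕ × ℕ) => p.2.2.1 := fst.comp (snd.comp snd)
  have hR : Primrec fun p : List Tile × (ℕ × ℕ × ℕ × ℕ) => p.2.2.2.1 :=
    fst.comp (snd.comp (snd.comp snd))
  have hK : Primrec fun p : List Tile × (ℕ × ℕ × ℕ × ℕ) => p.2.2.2.2 :=
    snd.comp (snd.comp (snd.comp snd))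
  unfold Cert
  refine PrimrecPred.and (nat_le.comp (const 1) hm) (PrimrecPred.and (nat_lt.comp (const 0) hQ)
    (PrimrecPred.and ?_ (PrimrecPred.and ?_ (PrimrecPred.and (nat_le.comp hR hK) ?_))))
  · refine pall_lt (padd (pmul (const 2) (pmul hm hm)) (const 1)) (pimp ?_ ?_)
    · exact PrimrecPred.not (Primrec.eq.comp snd (const 0))
    · exact Primrec.eq.comp (nat_mod.comp (hQ.comp fst) snd) (const 0)
  · exact nat_le.comp (padd (pmul hQ (pmul hm hm)) (pmul (const 2) (pmul hQ hm))) hR
  · have hL : Primrec fun p : List Tile × (ℕ × ℕ × ℕ × ℕ) => 2 * p.2.2.2.2 + 1 :=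
      padd (pmul (const 2) hK) (const 1)
    refine pall_mem (pallLists fst (pmul hL hL)) (pimp ?_ ?_)
    · exact pOK (hL.comp fst) snd
    · exact pPerTest (hL.comp fst) snd (psub (hK.comp fst) (hR.comp fst))
        (padd (pmul (const 2) (hR.comp fst)) (const 1)) (hm.comp fst)

/-- The certificate predicate for the absence of tilings. -/
theorem pNoWin : PrimrecPred fun p : List Tile × ℕ =>
    ∀ l ∈ allLists p.1 ((2 * p.2 + 1) * (2 * p.2 + 1)), ¬ OK (2 * p.2 + 1) l := by
  have hL : Primrec fun p : List Tile × ℕ => 2 * p.2 + 1 :=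
    padd (pmul (const 2) snd) (const 1)
  refine pall_mem (pallLists fst (pmul hL hL)) (PrimrecPred.not ?_)
  exact pOK (hL.comp fst) snd

end General

/-- An existential quantifier over a decidable predicate is semidecidable. -/
theorem re_of_exists {α : Type} [Primcodable α] {q : α × ℕ → Prop} (hq : ComputablePred q)
    {p : α → Prop} (h : ∀ a, p a ↔ ∃ k, q (a, k)) : REPred p := by
  classical
  obtain ⟨_, hq'⟩ := hq
  have h1 : Partrec fun a : α => Nat.rfind fun k => (Part.some (decide (q (a, k))) : Part Bool) :=
    Partrec.rfind (Computable.partrec (hq'.of_eq fun x => by congr))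
  refine (Partrec.dom_re h1).of_eq fun a => ?_
  rw [h a]
  refine Iff.trans Nat.rfind_dom ?_
  constructor
  · rintro ⟨n, hn, -⟩
    exact ⟨n, by simpa using hn⟩
  · rintro ⟨n, hn⟩
    exact ⟨n, by simpa using hn, fun _ => trivial⟩

end Pool.Agent.E8helper89.PT
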